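import Pool.Agent.SLR.Main

/-!
# MP_b5987d_al: the approximation conjecture holds along almost all sofic approximations of a
finitely generated free group, over every field

Let `F` be the free group on `d` generators, `K` any field, `A` a matrix over the group algebra
`K[F]`, and `r(A)` its stable inner rank (a nonnegative integer).

The rank of `A` with respect to every finite `F`-set is at most `r(A)`, and for every `ε > 0` there
is `c > 0` such that, for all large `n`, at most a fraction `n^(-c n)` of the `(n!)^d` structures of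
an `F`-set on `{0, …, n-1}` gives a rank of at most `r(A) - ε`.

Consequently, if `X_n` (`n = 0, 1, 2, …`) are independent uniformly random `F`-set structures on
`{0, …, n-1}`, then almost surely `(X_n)` is a sofic approximation of `F` and the rank of `A` with
respect to `X_n` tends to `r(A)` (for all matrices `A` at once if `K` is countable).
-/

set_option autoImplicit false

namespace Pool.Agent.Results.MP_b5987d_al.AlmostAllApproximations

open Filter Topology Pool.Agent.SLR
open scoped Nat

theorem result : ∀ (K : Type) [Field K] (d : ℕ),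
      (∀ (k l : ℕ) (A : Matrix (Fin k) (Fin l) (FreeGroup (Fin d) →₀ K)) (n : ℕ)
        (σ : Fin d → Equiv.Perm (Fin n)), (mat A σ).rank ≤ stableInnerRank A * n) ∧
      (∀ (k l : ℕ) (A : Matrix (Fin k) (Fin l) (FreeGroup (Fin d) →₀ K)) (ε : ℝ), 0 < ε →
        ∃ c : ℝ, 0 < c ∧ ∀ᶠ n : ℕ in atTop,
        (Nat.card {σ : Fin d → Equiv.Perm (Fin n) //
            ((mat A σ).rank : ℝ) ≤ (stableInnerRank A - ε) * n} : ℝ)
          ≤ (n : ℝ) ^ (-(c * n)) * ((n ! : ℕ) : ℝ) ^ d) ∧
      (∀ (k l : ℕ) (A : Matrix (Fin k) (Fin l) (FreeGroup (Fin d) →₀ K)),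
        ∀ᵐ ω ∂(law d), IsSofic ω ∧
          Tendsto (fun n : ℕ => ((mat A (ω n)).rank : ℝ) / n) atTop
            (𝓝 (stableInnerRank A : ℝ))) ∧
      (Countable K → ∀ᵐ ω ∂(law d), IsSofic ω ∧
        ∀ (k l : ℕ) (A : Matrix (Fin k) (Fin l) (FreeGroup (Fin d) →₀ K)),
          Tendsto (fun n : ℕ => ((mat A (ω n)).rank : ℝ) / n) atTop
            (𝓝 (stableInnerRank A : ℝ))) := by
  intro K _ d
  obtain ⟨h1, h2, -, h4, h5⟩ := main_sir K d
  exact ⟨h1, h2, h4, h5⟩

end Pool.Agent.Results.MP_b5987d_al.AlmostAllApproximations
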