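import Pool.Agent.SLR.Main

/-!
# MP_b5987d_al: every sofic approximation of a finitely generated free group has covers which form
a sofic approximation with the universal limit ranks

Let `F` be the free group on `d` generators, `K` a countable field, and `r(A)` the stable inner
rank of a matrix `A` over `K[F]`. For every sofic approximation `(Y_j)` of `F` there are finite
nonempty `F`-sets `Z_j` such that the products `Y_j × Z_j` (finite covers of `Y_j`) form a sofic
approximation of `F` and the rank of `A` with respect to `Y_j × Z_j` tends to `r(A)`, for all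
matrices `A` at once.
-/

set_option autoImplicit false

namespace Pool.Agent.Results.MP_b5987d_al.SoficCovers

open Filter Topology Pool.Agent.SLR

/-- The finite `F`-sets `Fin (m j)` with the generators acting by the permutations `τ j` form a
sofic approximation of the free group `F`. -/
def IsSoficSeq {d : ℕ} (m : ℕ → ℕ) (τ : ∀ j : ℕ, Fin d → Equiv.Perm (Fin (m j))) : Prop :=
  ∀ w : FreeGroup (Fin d), Tendsto (fun j : ℕ =>
    (Nat.card {v : Fin (m j) // FreeGroup.lift (τ j) w v = v} : ℝ) / m j) atTop
      (𝓝 (if w = 1 then 1 else 0))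

theorem result : ∀ (K : Type) [Field K] [Countable K] (d : ℕ)
    (m : ℕ → ℕ) (τ : ∀ j : ℕ, Fin d → Equiv.Perm (Fin (m j))), (∀ j, 0 < m j) →
    IsSoficSeq m τ →
    ∃ (n : ℕ → ℕ) (σ : ∀ j : ℕ, Fin d → Equiv.Perm (Fin (n j))), (∀ j, 0 < n j) ∧
      IsSoficSeq (fun j => m j * n j) (fun j => prodPerm (τ j) (σ j)) ∧
      ∀ (k l : ℕ) (A : Matrix (Fin k) (Fin l) (FreeGroup (Fin d) →₀ K)),
        Tendsto (fun j : ℕ =>
          ((mat A (prodPerm (τ j) (σ j))).rank : ℝ) / (m j * n j : ℕ)) atTop
          (𝓝 (stableInnerRank A : ℝ)) := by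
  intro K _ _ d m τ hm hτ
  obtain ⟨h1, h2, h3, h4, h5⟩ := main_sir K d
  obtain ⟨n, σ, hn, hfix, hlim⟩ := cov_proof (fun _ _ A => stableInnerRank A) h1 h3 m hm τ
  refine ⟨n, σ, hn, ?_, hlim⟩
  intro w
  by_cases hw : w = 1
  · subst hw
    simp only [if_true]
    refine tendsto_const_nhds.congr fun j => ?_
    have hpos : 0 < m j * n j := Nat.mul_pos (hm j) (hn j)
    have h0 : Nat.card {v : Fin (m j * n j) //
        FreeGroup.lift (prodPerm (τ j) (σ j)) 1 v = v} = m j * n j := by
      simp
    rw [h0]
    have h6 : ((m j * n j : ℕ) : ℝ) ≠ 0 := by exact_mod_cast hpos.ne'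
    exact (div_self h6).symm
  · have h6 := hτ w
    simp only [if_neg hw] at h6 ⊢
    refine tendsto_of_tendsto_of_tendsto_of_le_of_le tendsto_const_nhds h6 ?_ (fun j => hfix j w)
    intro j
    positivity

end Pool.Agent.Results.MP_b5987d_al.SoficCovers
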